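import Pool.Agent.Helper43.GD.St

set_option autoImplicit false

namespace Pool.Agent.Helper21.GD

open Pool.Agent.Helper43.GD
open scoped commutatorElement

/-- inner automorphisms and the centre -/
theorem WM_conj {H : Type} [Group H] (g k : H) (h : MulAut.conj g = MulAut.conj k) :
    k⁻¹ * g ∈ Subgroup.center H := by
  rw [Subgroup.mem_center_iff]
  intro y
  have h1 : MulAut.conj g y = MulAut.conj k y := by rw [h]
  rw [MulAut.conj_apply, MulAut.conj_apply] at h1
  calc y * (k⁻¹ * g) = k⁻¹ * (k * y * k⁻¹) * g := by group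
    _ = k⁻¹ * (g * y * g⁻¹) * g := by rw [h1]
    _ = k⁻¹ * g * y := by group

/-- the torus element conjugated by a Weyl element -/
theorem WM_tor {L A : Type} [CommRing L] [Group A] (s : Sys L A) {u τ : Lˣ} {k : A}
    (hu : s.Weyl u) (hk : s.IsTor τ k) : s.IsTor τ⁻¹ (s.om u * k * (s.om u)⁻¹) := by
  have h1 : ∀ a, (s.om u)⁻¹ * s.E a * s.om u = s.F (-(((u⁻¹ : Lˣ) : L) * ((u⁻¹ : Lˣ) : L) * a)) := by
    intro a
    have e : a = -((u : L) * (u : L) * (-(((u⁻¹ : Lˣ) : L) * ((u⁻¹ : Lˣ) : L) * a))) := by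
      have := u.mul_inv
      linear_combination (-a * (((u : L) * ((u⁻¹ : Lˣ) : L)) + 1)) * this
    conv_lhs => rw [e]
    rw [← hu.2]; group
  have h2 : ∀ b, (s.om u)⁻¹ * s.F b * s.om u = s.E (-((u : L) * (u : L) * b)) := by
    intro b
    have e : b = -(((u⁻¹ : Lˣ) : L) * ((u⁻¹ : Lˣ) : L) * (-((u : L) * (u : L) * b))) := by
      have := u.mul_inv
      linear_combination (-b * (((u : L) * ((u⁻¹ : Lˣ) : L)) + 1)) * this
    conv_lhs => rw [e]
    rw [← hu.1]; group
  constructor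
  · intro a
    calc s.om u * k * (s.om u)⁻¹ * s.E a * (s.om u * k * (s.om u)⁻¹)⁻¹
        = s.om u * (k * ((s.om u)⁻¹ * s.E a * s.om u) * k⁻¹) * (s.om u)⁻¹ := by group
      _ = _ := by
        rw [h1, hk.2, hu.2]
        congr 1
        have := u.mul_inv
        linear_combination (((τ⁻¹ : Lˣ) : L) * a * (((u : L) * ((u⁻¹ : Lˣ) : L)) + 1)) * this
  · intro b
    calc s.om u * k * (s.om u)⁻¹ * s.F b * (s.om u * k * (s.om u)⁻¹)⁻¹
        = s.om u * (k * ((s.om u)⁻¹ * s.F b * s.om u) * k⁻¹) * (s.om u)⁻¹ := by group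
      _ = _ := by
        rw [h2, hk.1, hu.1, inv_inv]
        congr 1
        have := u.mul_inv
        linear_combination ((τ : L) * b * (((u : L) * ((u⁻¹ : Lˣ) : L)) + 1)) * this

/-- an element which commutes with the whole system is central -/
theorem WM_cent {L A : Type} [CommRing L] [Group A] (s : Sys L A) (hg : s.gp = ⊤) {c : A}
    (h : s.IsTor 1 c) : c ∈ Subgroup.center A := by
  have h1 : s.gp ≤ Subgroup.centralizer {c} := by
    unfold Sys.gp
    rw [Subgroup.closure_le]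
    rintro y (⟨a, rfl⟩ | ⟨b, rfl⟩)
    · rw [SetLike.mem_coe, Subgroup.mem_centralizer_singleton_iff]
      have := h.1 a
      rw [Units.val_one, one_mul] at this
      exact (mul_inv_eq_iff_eq_mul.1 this).symm
    · rw [SetLike.mem_coe, Subgroup.mem_centralizer_singleton_iff]
      have := h.2 b
      rw [inv_one, Units.val_one, one_mul] at this
      exact (mul_inv_eq_iff_eq_mul.1 this).symm
  rw [hg] at h1
  rw [Subgroup.mem_center_iff]
  intro y
  have h2 := h1 (Subgroup.mem_top y)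
  rw [Subgroup.mem_centralizer_singleton_iff] at h2
  exact h2

/-- the last step -/
theorem WM_last {L H : Type} [CommRing L] [Group H] (P R : L → H) (g k : H) (τ : L)
    (hP : ∀ a b, P (a + b) = P a * P b) (hR : ∀ a b, R (a + b) = R a * R b)
    (hc : ∀ a, (R a)⁻¹ * (g * P a * g⁻¹) ∈ Subgroup.center H)
    (h1 : ∀ a, k * P a * k⁻¹ = P (τ * a)) (h2 : ∀ a, k⁻¹ * R a * k = R (τ * a))
    (h3 : g * k * g⁻¹ * k ∈ Subgroup.center H) (hτ : IsUnit (τ - 1)) :
    ∀ a, g * P a * g⁻¹ = R a := by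
  obtain ⟨v, hv⟩ := hτ
  intro a'
  -- write a' = (τ - 1) a
  set a : L := ((v⁻¹ : Lˣ) : L) * a' with ha
  have ha' : τ * a = a' + a := by
    have h4 : (τ - 1) * a = a' := by
      rw [ha, ← hv, ← mul_assoc, Units.mul_inv, one_mul]
    linear_combination h4
  -- z a
  have hz := Subgroup.mem_center_iff.1 (hc a)
  have hC := Subgroup.mem_center_iff.1 h3
  set z : H := (R a)⁻¹ * (g * P a * g⁻¹) with hzdef
  set C : H := g * k * g⁻¹ * k with hCdef
  have e1 : g * P a * g⁻¹ = R a * z := by rw [hzdef]; group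
  have e2 : g * k * g⁻¹ = C * k⁻¹ := by rw [hCdef]; group
  have e3 : g * P (τ * a) * g⁻¹ = R (τ * a) * z := by
    calc g * P (τ * a) * g⁻¹ = g * (k * P a * k⁻¹) * g⁻¹ := by rw [h1]
      _ = (g * k * g⁻¹) * (g * P a * g⁻¹) * (g * k * g⁻¹)⁻¹ := by group
      _ = (C * k⁻¹) * (R a * z) * (C * k⁻¹)⁻¹ := by rw [e1, e2]
      _ = C * (k⁻¹ * (R a * z) * k) * C⁻¹ := by group
      _ = k⁻¹ * (R a * z) * k := by
        rw [← hC (k⁻¹ * (R a * z) * k)]
        group
      _ = k⁻¹ * R a * (z * k) := by group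
      _ = k⁻¹ * R a * (k * z) := by rw [hz k]
      _ = (k⁻¹ * R a * k) * z := by group
      _ = R (τ * a) * z := by rw [h2]
  have e4 : g * P (τ * a) * g⁻¹ = (g * P a' * g⁻¹) * (R a * z) := by
    rw [ha', hP, ← e1]
    group
  have e5 : R (τ * a) * z = R a' * (R a * z) := by
    rw [ha', hR, mul_assoc]
  rw [e4, e5] at e3
  exact mul_right_cancel e3

theorem hWM : StWM := by
  intro L H _ _ M x s hRg h1 hx hgp hperf u hE hF
  -- the torus element
  have hk0 := s.tor_of_weyl h1 hx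
  rw [inv_one, mul_one, mul_one] at hk0
  set k : H := s.om x * (s.om 1)⁻¹ with hk
  -- the system modulo the centre
  let π : H →* H ⧸ Subgroup.center H := QuotientGroup.mk' (Subgroup.center H)
  have hπ : ∀ g k : H, MulAut.conj g = MulAut.conj k → π g = π k := by
    intro g k h
    have := WM_conj g k h
    exact (QuotientGroup.eq.2 this).symm
  let s' : Sys L (H ⧸ Subgroup.center H) :=
    { E := fun a => π (s.E a)
      F := fun a => π (s.F a)
      Eadd := fun a b => by rw [s.Eadd, map_mul]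
      Fadd := fun a b => by rw [s.Fadd, map_mul] }
  have hom : ∀ v : Lˣ, s'.om v = π (s.om v) := by
    intro v
    show π (s.E (v : L)) * π (s.F (-((v⁻¹ : Lˣ) : L))) * π (s.E (v : L)) = _
    rw [← map_mul, ← map_mul]
    rfl
  have hW : s'.Weyl u := by
    constructor
    · intro a
      rw [hom]
      show π (s.om u) * π (s.E a) * (π (s.om u))⁻¹ = π (s.F _)
      rw [← map_mul, ← map_inv, ← map_mul]
      exact hπ _ _ (hE a)
    · intro a
      rw [hom]
      show π (s.om u) * π (s.F a) * (π (s.om u))⁻¹ = π (s.E _)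
      rw [← map_mul, ← map_inv, ← map_mul]
      exact hπ _ _ (hF a)
  have hT : s'.IsTor (x * x) (π k) := by
    constructor
    · intro a
      show π k * π (s.E a) * (π k)⁻¹ = π (s.E _)
      rw [← map_mul, ← map_inv, ← map_mul, hk0.1]
    · intro a
      show π k * π (s.F a) * (π k)⁻¹ = π (s.F _)
      rw [← map_mul, ← map_inv, ← map_mul, hk0.2]
  have hgp' : s'.gp = ⊤ := by
    have h5 : (s.gp).map π ≤ s'.gp := by
      unfold Sys.gp
      rw [MonoidHom.map_closure, Subgroup.closure_le]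
      rintro _ ⟨y, (⟨a, rfl⟩ | ⟨b, rfl⟩), rfl⟩
      · exact Subgroup.subset_closure (Or.inl ⟨a, rfl⟩)
      · exact Subgroup.subset_closure (Or.inr ⟨b, rfl⟩)
    rw [hgp, ← MonoidHom.range_eq_map] at h5
    rw [eq_top_iff]
    refine le_trans ?_ h5
    intro y _
    exact QuotientGroup.mk'_surjective _ y
  have hC' : π (s.om u * k * (s.om u)⁻¹ * k) ∈ Subgroup.center (H ⧸ Subgroup.center H) := by
    apply WM_cent s' hgp'
    have h6 := (WM_tor s' hW hT).mul s' hT
    rw [inv_mul_cancel, hom] at h6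
    rw [map_mul, map_mul, map_mul, map_inv]
    exact h6
  have hC : s.om u * k * (s.om u)⁻¹ * k ∈ Subgroup.center H := by
    apply Pool.Agent.Helper60.DZ2.Red_grun hperf
    intro y
    have h7 : π ⁅s.om u * k * (s.om u)⁻¹ * k, y⁆ = 1 := by
      rw [map_commutatorElement, commutatorElement_eq_one_iff_mul_comm]
      exact ((Subgroup.mem_center_iff.1 hC') (π y)).symm
    exact (QuotientGroup.eq_one_iff _).1 h7
  -- the units
  have hx1 : (x : L) * (x : L) - 1 = -(x : L) := by
    have := hRg.gold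
    linear_combination this
  have hinv : ((x⁻¹ : Lˣ) : L) * (x : L) = 1 := x.inv_mul
  constructor
  · apply WM_last s.E (fun a => s.F (-(((u⁻¹ : Lˣ) : L) * ((u⁻¹ : Lˣ) : L) * a))) (s.om u) k
      (((x * x : Lˣ) : L)) s.Eadd
    · intro a b
      rw [← s.Fadd]
      congr 1
      ring
    · intro a
      exact WM_conj _ _ (hE a)
    · exact hk0.1
    · intro a
      have h8 := (hk0.inv).2 (-(((u⁻¹ : Lˣ) : L) * ((u⁻¹ : Lˣ) : L) * a))
      rw [inv_inv, inv_inv] at h8
      rw [h8]
      congr 1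
      ring
    · exact hC
    · rw [Units.val_mul, hx1]
      exact x.isUnit.neg
  · apply WM_last s.F (fun b => s.E (-((u : L) * (u : L) * b))) (s.om u) k
      ((((x * x)⁻¹ : Lˣ) : L)) s.Fadd
    · intro a b
      rw [← s.Eadd]
      congr 1
      ring
    · intro a
      exact WM_conj _ _ (hF a)
    · exact hk0.2
    · intro a
      have h8 := (hk0.inv).1 (-((u : L) * (u : L) * a))
      rw [inv_inv] at h8
      rw [h8]
      congr 1
      ring
    · exact hC
    · have h9 : ((((x * x)⁻¹ : Lˣ) : L)) - 1 = ((x⁻¹ : Lˣ) : L) := by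
        rw [mul_inv, Units.val_mul]
        linear_combination (-(((x⁻¹ : Lˣ) : L) * ((x⁻¹ : Lˣ) : L))) * hx1 + (((x⁻¹ : Lˣ) : L) * (x : L) + 1 + ((x⁻¹ : Lˣ) : L)) * hinv
      rw [h9]
      exact (x⁻¹).isUnit

end Pool.Agent.Helper21.GD
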